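import Pool.Agent.H964.QC.Stm

/-!
# The Markov property of the chain of blocks (task QC-CHN, helper922)
-/

set_option autoImplicit false
set_option linter.all false

open MeasureTheory ProbabilityTheory Filter Finset

namespace Pool.Agent.H922.QC

open Pool.Agent.H964.QC

/-- layers renumbered: the layer `n + 1` is the given layer `n` -/
def ush {V : Type} (y : ℕ → V → ℝ) : ℕ → V → ℝ
  | 0, _ => 0
  | n + 1, v => y n v

theorem ush_sft {V : Type} (j : ℕ) (x : ℕ → V → ℝ) (n : ℕ) (hn : 1 ≤ n) :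
    sft j x n = ush (sft (j + 1) x) n := by
  obtain ⟨m, rfl⟩ : ∃ m, n = m + 1 := ⟨n - 1, by omega⟩
  funext v
  show x (j + (m + 1)) v = x (j + 1 + m) v
  congr 1
  omega

theorem meas_ush {V : Type} : Measurable (ush : (ℕ → V → ℝ) → (ℕ → V → ℝ)) := by
  refine measurable_pi_lambda _ fun n => ?_
  cases n with
  | zero =>
    have e : (fun c : ℕ → V → ℝ => ush c 0) = fun _ => fun _ => (0 : ℝ) := rfl
    rw [e]
    exact measurable_const
  | succ n => exact measurable_pi_apply n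

theorem meas_cut {V : Type} (j : ℕ) : Measurable (cut j : (ℕ → V → ℝ) → (ℕ → V → ℝ)) := by
  refine measurable_pi_lambda _ fun n => measurable_pi_lambda _ fun v => ?_
  unfold cut
  by_cases h : n ≤ j
  · simp only [h, if_true]
    exact (measurable_pi_apply v).comp (measurable_pi_apply n)
  · simp only [h, if_false]
    exact measurable_const

theorem meas_sft {V : Type} (j : ℕ) : Measurable (sft j : (ℕ → V → ℝ) → (ℕ → V → ℝ)) := by
  refine measurable_pi_lambda _ fun n => measurable_pi_lambda _ fun v => ?_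
  exact (measurable_pi_apply v).comp (measurable_pi_apply (j + n))

section

variable {V : Type} [Fintype V] [DecidableEq V] {C0 : ℝ} {N0 : ℕ} (W : Wlk V C0 N0)

theorem fwd_congr {x x' : ℕ → V → ℝ} (T : ℕ) (h : ∀ n, 1 ≤ n → x n = x' n) :
    ∀ w : V → ℝ, fwd W x T w = fwd W x' T w := by
  induction T with
  | zero => intro w; rfl
  | succ T ih =>
    intro w
    show fwd W x T (fun z => (1 + x (T + 1) z) * wt W w 1 z) =
      fwd W x' T (fun z => (1 + x' (T + 1) z) * wt W w 1 z)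
    rw [ih, h (T + 1) (by omega)]

theorem sum_pos_of {w : V → ℝ} (hw : ∀ x, 0 ≤ w x) (hw1 : ∑ x, w x = 1) {g : V → ℝ}
    (hg : ∀ x, 0 < g x) : 0 < ∑ x, w x * g x := by
  apply Finset.sum_pos' fun x _ => mul_nonneg (hw x) (hg x).le
  by_contra hcon
  push Not at hcon
  have h0 : ∀ x, w x = 0 := by
    intro x
    by_contra hx
    have h1 : 0 < w x := lt_of_le_of_ne (hw x) (Ne.symm hx)
    have h2 := hcon x (Finset.mem_univ x)
    have h3 := mul_pos h1 (hg x)
    linarith
  rw [Finset.sum_eq_zero fun x _ => h0 x] at hw1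
  exact zero_ne_one hw1

end

theorem norm_ex (r : ℝ) : ‖Complex.exp (Complex.I * (r : ℂ))‖ = 1 := by
  rw [mul_comm]
  exact Complex.norm_exp_ofReal_mul_I r

theorem norm_chi {V : Type} [Fintype V] [DecidableEq V] {C0 : ℝ} {N0 : ℕ} (W : Wlk V C0 N0)
    {Ω : Type} [MeasurableSpace Ω] (P : Measure Ω) [IsProbabilityMeasure P]
    (η : ℕ → V → Ω → ℝ) (u c : ℝ) (j : ℕ) (w : V → ℝ) : ‖chi W P η u c j w‖ ≤ 1 := by
  unfold chi
  refine (norm_integral_le_of_norm_le_const (C := 1) (ae_of_all _ fun ω => ?_)).trans ?_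
  · rw [norm_ex]
  · simp

theorem t_CHN : S_CHN := by
  intro hMEAS hIND hFRZ hDUAL V _ _ C0 N0 W Ω _ P _ s2 κ η w j T u c1 c2 e b ρ S hN hw hw1 hS hρ
    he hchi hb
  obtain ⟨-, hpos, hcut, hmZ, hmF, -, hmC, -⟩ := hMEAS V C0 N0 W Ω P s2 κ η hN
  obtain ⟨hind, -, -⟩ := hIND V Ω P s2 κ η hN j
  obtain ⟨F, hF⟩ : ∃ F : (ℕ → V → ℝ) → V → ℝ, ∀ y, F y = fwd W (ush y) T w := ⟨_, fun y => rfl⟩
  obtain ⟨M, hM⟩ : ∃ M : (ℕ → V → ℝ) → ℝ, ∀ y, M y = ∑ z, F y z := ⟨_, fun y => rfl⟩
  obtain ⟨v, hv⟩ : ∃ v : (ℕ → V → ℝ) → V → ℝ, ∀ y, v y = fun z => F y z / M y := ⟨_, fun y => rfl⟩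
  have hFm : ∀ z, Measurable fun y => F y z := by
    intro z
    have e1 : (fun y => F y z) = fun y => fwd W (ush y) T w z := funext fun y => by rw [hF]
    rw [e1]
    exact (hmF T w z).comp meas_ush
  have hMm : Measurable M := by
    have e1 : M = fun y => ∑ z, F y z := funext hM
    rw [e1]
    exact Finset.measurable_sum _ fun z _ => hFm z
  have hvm : Measurable v := by
    refine measurable_pi_lambda _ fun z => ?_
    have e1 : (fun y => v y z) = fun y => F y z / M y := funext fun y => by rw [hv]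
    rw [e1]
    exact (hFm z).div hMm
  -- pointwise facts
  have hFs : ∀ x : ℕ → V → ℝ, fwd W (sft j x) T w = F (sft (j + 1) x) := by
    intro x
    rw [hF]
    exact fwd_congr W T (fun n hn => ush_sft j x n hn) w
  have hgt : ∀ ω n v, -1 < cfg η ω n v := fun ω n v => hN.gt n v ω
  have hgt' : ∀ ω n v, -1 < sft j (cfg η ω) n v := fun ω n v => hN.gt (j + n) v ω
  have hM1 : ∀ ω, M (sft (j + 1) (cfg η ω)) = ∑ y, w y * Zr W (sft j (cfg η ω)) T y := by
    intro ω
    rw [(hDUAL V C0 N0 W (sft j (cfg η ω)) w j T).2.1, hFs, hM]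
  have hM0 : ∀ ω, 0 < M (sft (j + 1) (cfg η ω)) := by
    intro ω
    rw [hM1]
    exact sum_pos_of hw hw1 fun y => hpos _ T y (hgt' ω)
  have hXX : ∀ ω, 1 + XX W w T (sft j (cfg η ω)) T = M (sft (j + 1) (cfg η ω)) := by
    intro ω
    rw [(hDUAL V C0 N0 W (sft j (cfg η ω)) w j T).2.2.1, hM1, hw1]
    ring
  have hprod : ∀ ω, ∑ y, w y * Zr W (cfg η ω) (j + T) y = M (sft (j + 1) (cfg η ω)) *
      ∑ z, v (sft (j + 1) (cfg η ω)) z * Zr W (cfg η ω) j z := by
    intro ω
    rw [(hDUAL V C0 N0 W (cfg η ω) w j T).1, hFs, Finset.mul_sum, hv]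
    refine Finset.sum_congr rfl fun z _ => ?_
    have := (hM0 ω).ne'
    field_simp
  have hq0 : ∀ ω, 0 < ∑ z, v (sft (j + 1) (cfg η ω)) z * Zr W (cfg η ω) j z := by
    intro ω
    have h1 : 0 < ∑ y, w y * Zr W (cfg η ω) (j + T) y :=
      sum_pos_of hw hw1 fun y => hpos _ (j + T) y (hgt ω)
    rw [hprod] at h1
    exact pos_of_mul_pos_right h1 (hM0 ω).le
  -- the two factors
  obtain ⟨A, hA⟩ : ∃ A : (ℕ → V → ℝ) → ℂ, ∀ y, A y =
      Complex.exp (Complex.I * (u * (Real.log (M y) + c1) : ℝ)) := ⟨_, fun y => rfl⟩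
  have hAm : Measurable A := by
    have e1 : A = fun y => Complex.exp (Complex.I * (u * (Real.log (M y) + c1) : ℝ)) := funext hA
    rw [e1]
    refine Complex.measurable_exp.comp (measurable_const.mul (Complex.measurable_ofReal.comp ?_))
    exact ((Real.measurable_log.comp hMm).add_const c1).const_mul u
  have hA1 : ∀ y, ‖A y‖ = 1 := fun y => by rw [hA]; exact norm_ex _
  obtain ⟨B, hB⟩ : ∃ B : (ℕ → V → ℝ) → (ℕ → V → ℝ) → ℂ, ∀ y x, B y x =
      Complex.exp (Complex.I * (u * (Real.log (∑ z, v y z * Zr W x j z) + c2) : ℝ)) :=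
    ⟨_, fun y x => rfl⟩
  have hBm : Measurable fun q : (ℕ → V → ℝ) × (ℕ → V → ℝ) => B q.1 q.2 := by
    have e1 : (fun q : (ℕ → V → ℝ) × (ℕ → V → ℝ) => B q.1 q.2) = fun q =>
        Complex.exp (Complex.I * (u * (Real.log (∑ z, v q.1 z * Zr W q.2 j z) + c2) : ℝ)) :=
      funext fun q => hB _ _
    rw [e1]
    refine Complex.measurable_exp.comp (measurable_const.mul (Complex.measurable_ofReal.comp ?_))
    refine ((Real.measurable_log.comp ?_).add_const c2).const_mul u
    refine Finset.measurable_sum _ fun z _ => ?_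
    exact ((measurable_pi_apply z).comp (hvm.comp measurable_fst)).mul
      ((hmZ j z).comp measurable_snd)
  have hB1 : ∀ y x, ‖B y x‖ = 1 := fun y x => by rw [hB]; exact norm_ex _
  have hYm : Measurable fun ω => sft (j + 1) (cfg η ω) := (meas_sft (j + 1)).comp hmC
  have hXm : Measurable fun ω => cut j (cfg η ω) := (meas_cut j).comp hmC
  have hfm : Measurable fun q : (ℕ → V → ℝ) × (ℕ → V → ℝ) => A q.1 * B q.1 q.2 :=
    (hAm.comp measurable_fst).mul hBm
  have hint : Integrable (fun ω => A (sft (j + 1) (cfg η ω)) *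
      B (sft (j + 1) (cfg η ω)) (cut j (cfg η ω))) P := by
    refine Integrable.of_bound (C := 1) (hfm.comp (hYm.prodMk hXm)).aestronglyMeasurable
      (ae_of_all _ fun ω => ?_)
    show ‖A (sft (j + 1) (cfg η ω)) * B (sft (j + 1) (cfg η ω)) (cut j (cfg η ω))‖ ≤ 1
    rw [norm_mul, hA1, hB1, one_mul]
  obtain ⟨hfrz, hfrz2, -⟩ := hFRZ Ω (ℕ → V → ℝ) (ℕ → V → ℝ) ℂ P
    (fun ω => sft (j + 1) (cfg η ω)) (fun ω => cut j (cfg η ω))
    (fun q => A q.1 * B q.1 q.2) hYm hXm hfm hind.symm hint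
  -- the inner integral
  have hinner : ∀ ω, ∫ ω', A (sft (j + 1) (cfg η ω)) *
      B (sft (j + 1) (cfg η ω)) (cut j (cfg η ω')) ∂P =
      A (sft (j + 1) (cfg η ω)) * chi W P η u c2 j (v (sft (j + 1) (cfg η ω))) := by
    intro ω
    rw [integral_const_mul]
    congr 1
    unfold chi
    refine integral_congr_ae (ae_of_all _ fun ω' => ?_)
    show B (sft (j + 1) (cfg η ω)) (cut j (cfg η ω')) = _
    rw [hB, ← hcut (cfg η ω') j]
  have houter : chi W P η u (c1 + c2) (j + T) w = ∫ ω, A (sft (j + 1) (cfg η ω)) *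
      B (sft (j + 1) (cfg η ω)) (cut j (cfg η ω)) ∂P := by
    unfold chi
    refine integral_congr_ae (ae_of_all _ fun ω => ?_)
    show Complex.exp (Complex.I * (u * (Real.log (∑ x, w x * Zr W (cfg η ω) (j + T) x) +
      (c1 + c2)) : ℝ)) = A (sft (j + 1) (cfg η ω)) *
        B (sft (j + 1) (cfg η ω)) (cut j (cfg η ω))
    rw [hprod, Real.log_mul (hM0 ω).ne' (hq0 ω).ne', hA, hB, ← hcut (cfg η ω) j, ← Complex.exp_add]
    congr 1
    push_cast
    ring
  have hA2 : (∫ ω, Complex.exp (Complex.I * (u * (Real.log (1 + XX W w T (sft j (cfg η ω)) T) + c1) : ℝ)) ∂P) =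
      ∫ ω, A (sft (j + 1) (cfg η ω)) ∂P := by
    refine integral_congr_ae (ae_of_all _ fun ω => ?_)
    show Complex.exp (Complex.I * (u * (Real.log (1 + XX W w T (sft j (cfg η ω)) T) + c1) : ℝ)) =
      A (sft (j + 1) (cfg η ω))
    rw [hA, hXX]
  have hAint : Integrable (fun ω => A (sft (j + 1) (cfg η ω))) P := by
    refine Integrable.of_bound (C := 1) (hAm.comp hYm).aestronglyMeasurable
      (ae_of_all _ fun ω => ?_)
    show ‖A (sft (j + 1) (cfg η ω))‖ ≤ 1
    rw [hA1]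
  have hfrz3 : Integrable (fun ω => A (sft (j + 1) (cfg η ω)) *
      chi W P η u c2 j (v (sft (j + 1) (cfg η ω)))) P := by
    refine hfrz2.congr (ae_of_all _ fun ω => ?_)
    exact hinner ω
  have hmain : chi W P η u (c1 + c2) (j + T) w -
      (∫ ω, Complex.exp (Complex.I * (u * (Real.log (1 + XX W w T (sft j (cfg η ω)) T) + c1) : ℝ)) ∂P) * ρ =
      ∫ ω, (A (sft (j + 1) (cfg η ω)) * chi W P η u c2 j (v (sft (j + 1) (cfg η ω))) -
        A (sft (j + 1) (cfg η ω)) * ρ) ∂P := by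
    rw [integral_sub hfrz3 (hAint.mul_const ρ), integral_mul_const, hA2, houter]
    congr 1
    refine hfrz.trans (integral_congr_ae (ae_of_all _ fun ω => ?_))
    exact hinner ω
  rw [hmain]
  -- the bound
  obtain ⟨D, hD⟩ : ∃ D : Set Ω, D = {ω | v (sft (j + 1) (cfg η ω)) ∉ S} := ⟨_, rfl⟩
  have hDm : MeasurableSet D := by
    rw [hD]
    exact (hvm.comp hYm) hS.compl
  have hDb : P.real D ≤ b := by
    have e1 : D = {ω | (fun z => fwd W (sft j (cfg η ω)) T w z /
        ∑ x, fwd W (sft j (cfg η ω)) T w x) ∉ S} := by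
      rw [hD]
      ext ω
      show v (sft (j + 1) (cfg η ω)) ∉ S ↔ (fun z => fwd W (sft j (cfg η ω)) T w z /
        ∑ x, fwd W (sft j (cfg η ω)) T w x) ∉ S
      rw [hv, hM, hFs]
    rw [e1]
    exact hb
  have hgi : Integrable (fun ω => e + D.indicator (fun _ => (2 : ℝ)) ω) P :=
    (integrable_const e).add ((integrable_const (2 : ℝ)).indicator hDm)
  refine (norm_integral_le_of_norm_le hgi (ae_of_all _ fun ω => ?_)).trans ?_
  · show ‖A (sft (j + 1) (cfg η ω)) * chi W P η u c2 j (v (sft (j + 1) (cfg η ω))) -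
        A (sft (j + 1) (cfg η ω)) * ρ‖ ≤ e + D.indicator (fun _ => (2 : ℝ)) ω
    rw [← mul_sub, norm_mul, hA1, one_mul]
    by_cases hω : ω ∈ D
    · rw [Set.indicator_of_mem hω]
      refine (norm_sub_le _ _).trans ?_
      have := norm_chi W P η u c2 j (v (sft (j + 1) (cfg η ω)))
      linarith
    · rw [Set.indicator_of_notMem hω, add_zero]
      apply hchi
      by_contra hcon
      apply hω
      rw [hD]
      exact hcon
  · rw [integral_add (integrable_const e) ((integrable_const (2 : ℝ)).indicator hDm),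
      integral_indicator_const _ hDm]
    simp only [integral_const, probReal_univ, one_smul, smul_eq_mul]
    linarith

end Pool.Agent.H922.QC
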