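import Pool.Agent.H815.QC.Stm

/-!
# The first Betti number of a subgroup of finite index of a free group
-/

set_option autoImplicit false

namespace Pool.Agent.H922.QC

open Pool.Agent.H815.QC

section gen

variable (G : Type) [Group G] (M : Subgroup G)

/-- cocycles with values in the functions on the cosets -/
def Zc : Submodule ℚ (G → (G ⧸ M) → ℚ) where
  carrier := {c | ∀ g h x, c (g * h) x = c g (h • x) + c h x}
  zero_mem' := fun _ _ _ => by simp
  add_mem' := fun {a b} ha hb g h x => by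
    change a (g * h) x + b (g * h) x = (a g (h • x) + b g (h • x)) + (a h x + b h x)
    rw [ha g h x, hb g h x]
    ring
  smul_mem' := fun q a ha g h x => by
    change q * a (g * h) x = q * a g (h • x) + q * a h x
    rw [ha g h x]
    ring

variable {G M}

theorem Zc.one (c : Zc G M) (x : G ⧸ M) : c.1 1 x = 0 := by
  have h := c.2 1 1 x
  rw [one_smul, mul_one] at h
  linarith

theorem Zc.inv (c : Zc G M) (g : G) (x : G ⧸ M) : c.1 g⁻¹ x = -c.1 g (g⁻¹ • x) := by
  have h := c.2 g g⁻¹ x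
  rw [mul_inv_cancel, Zc.one] at h
  linarith

theorem fix (m : M) : (m : G) • ((1 : G) : G ⧸ M) = ((1 : G) : G ⧸ M) := by
  have h : (m : G) • ((1 : G) : G ⧸ M) = (((m : G) * 1 : G) : G ⧸ M) := rfl
  rw [h, QuotientGroup.eq, mul_one, mul_one]
  exact M.inv_mem m.2

theorem coe_eq (g : G) : (g : G ⧸ M) = g • ((1 : G) : G ⧸ M) := by
  have h : g • ((1 : G) : G ⧸ M) = ((g * 1 : G) : G ⧸ M) := rfl
  rw [h, mul_one]

variable (G M)

/-- from cocycles to homomorphisms -/
def RR : Zc G M →ₗ[ℚ] (Additive M →+ ℚ) where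
  toFun c :=
    { toFun := fun m => c.1 (m.toMul : G) ((1 : G) : G ⧸ M)
      map_zero' := Zc.one c _
      map_add' := fun a b => by
        have h := c.2 (a.toMul : G) (b.toMul : G) ((1 : G) : G ⧸ M)
        rw [fix] at h
        exact h }
  map_add' _ _ := rfl
  map_smul' _ _ := rfl

/-- coboundaries -/
def DD : ((G ⧸ M) → ℚ) →ₗ[ℚ] Zc G M where
  toFun f := ⟨fun g x => f (g • x) - f x, fun g h x => by
    change f ((g * h) • x) - f x = (f (g • h • x) - f (h • x)) + (f (h • x) - f x)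
    rw [mul_smul]
    ring⟩
  map_add' a b := by
    apply Subtype.ext
    funext g x
    change (a (g • x) + b (g • x)) - (a x + b x) = (a (g • x) - a x) + (b (g • x) - b x)
    ring
  map_smul' q a := by
    apply Subtype.ext
    funext g x
    change q * a (g • x) - q * a x = q * (a (g • x) - a x)
    ring

variable {G M}

theorem RR_surj : Function.Surjective (RR G M) := by
  intro φ
  obtain ⟨σ, hσ⟩ : ∃ σ : G ⧸ M → G, ∀ x, ((σ x : G) : G ⧸ M) = x :=
    ⟨fun x => Quotient.out x, fun x => Quotient.out_eq x⟩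
  have hmem : ∀ (g : G) (x : G ⧸ M), (σ (g • x))⁻¹ * (g * σ x) ∈ M := by
    intro g x
    rw [← QuotientGroup.eq, hσ]
    conv_lhs => rw [← hσ x]
    rfl
  let c : G → (G ⧸ M) → ℚ := fun g x => φ (Additive.ofMul ⟨_, hmem g x⟩)
  have hc : c ∈ Zc G M := by
    intro g h x
    change φ _ = φ _ + φ _
    rw [← map_add, ← ofMul_mul]
    congr 2
    apply Subtype.ext
    change (σ ((g * h) • x))⁻¹ * (g * h * σ x) = (σ (g • h • x))⁻¹ * (g * σ (h • x)) *
      ((σ (h • x))⁻¹ * (h * σ x))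
    rw [mul_smul]
    group
  refine ⟨⟨c, hc⟩, ?_⟩
  refine AddMonoidHom.ext fun m => ?_
  change φ (Additive.ofMul ⟨_, hmem (m.toMul : G) ((1 : G) : G ⧸ M)⟩) = φ m
  have h1 : σ ((1 : G) : G ⧸ M) ∈ M := by
    have h2 := hσ ((1 : G) : G ⧸ M)
    rw [eq_comm, QuotientGroup.eq, inv_one, one_mul] at h2
    exact h2
  have e : (⟨_, hmem (m.toMul : G) ((1 : G) : G ⧸ M)⟩ : M) =
      (⟨σ ((1 : G) : G ⧸ M), h1⟩ : M)⁻¹ * (m.toMul * ⟨σ ((1 : G) : G ⧸ M), h1⟩) := by
    apply Subtype.ext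
    change (σ ((m.toMul : G) • ((1 : G) : G ⧸ M)))⁻¹ * ((m.toMul : G) * σ ((1 : G) : G ⧸ M)) = _
    rw [fix]
    rfl
  rw [e, ofMul_mul, ofMul_mul, ofMul_inv, map_add, map_add, map_neg]
  change -φ (Additive.ofMul _) + (φ m + φ (Additive.ofMul _)) = φ m
  ring

theorem DD_ker : LinearMap.ker (DD G M) = ℚ ∙ (fun _ : G ⧸ M => (1 : ℚ)) := by
  ext f
  rw [LinearMap.mem_ker, Submodule.mem_span_singleton]
  constructor
  · intro h
    refine ⟨f ((1 : G) : G ⧸ M), ?_⟩
    funext x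
    obtain ⟨g, rfl⟩ := QuotientGroup.mk_surjective x
    have h1 : f (g • ((1 : G) : G ⧸ M)) - f ((1 : G) : G ⧸ M) = 0 :=
      congrFun (congrFun (congrArg Subtype.val h) g) ((1 : G) : G ⧸ M)
    change f ((1 : G) : G ⧸ M) * 1 = f (g : G ⧸ M)
    rw [coe_eq g]
    linarith
  · rintro ⟨q, rfl⟩
    apply Subtype.ext
    funext g x
    change q * 1 - q * 1 = 0
    ring

theorem DD_range : LinearMap.range (DD G M) = LinearMap.ker (RR G M) := by
  ext c
  rw [LinearMap.mem_ker, LinearMap.mem_range]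
  constructor
  · rintro ⟨f, rfl⟩
    refine AddMonoidHom.ext fun m => ?_
    change f ((m.toMul : G) • ((1 : G) : G ⧸ M)) - f ((1 : G) : G ⧸ M) = 0
    rw [fix, sub_self]
  · intro h
    have h0 : ∀ m : M, c.1 (m : G) ((1 : G) : G ⧸ M) = 0 := fun m =>
      DFunLike.congr_fun h (Additive.ofMul m)
    obtain ⟨σ, hσ⟩ : ∃ σ : G ⧸ M → G, ∀ x, ((σ x : G) : G ⧸ M) = x :=
      ⟨fun x => Quotient.out x, fun x => Quotient.out_eq x⟩
    have key : ∀ g : G, c.1 (σ (g : G ⧸ M)) ((1 : G) : G ⧸ M) = c.1 g ((1 : G) : G ⧸ M) := by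
      intro g
      have h1 : (σ (g : G ⧸ M))⁻¹ * g ∈ M := by
        rw [← QuotientGroup.eq, hσ]
      have h2 := c.2 (σ (g : G ⧸ M)) ((σ (g : G ⧸ M))⁻¹ * g) ((1 : G) : G ⧸ M)
      have h3 := fix (G := G) (M := M) ⟨_, h1⟩
      change ((σ (g : G ⧸ M))⁻¹ * g) • ((1 : G) : G ⧸ M) = _ at h3
      have h4 := h0 ⟨_, h1⟩
      change c.1 ((σ (g : G ⧸ M))⁻¹ * g) ((1 : G) : G ⧸ M) = 0 at h4
      rw [h3, h4, mul_inv_cancel_left, add_zero] at h2
      exact h2.symm
    refine ⟨fun x => c.1 (σ x) ((1 : G) : G ⧸ M), ?_⟩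
    apply Subtype.ext
    funext g x
    obtain ⟨a, rfl⟩ := QuotientGroup.mk_surjective x
    change c.1 (σ (g • (a : G ⧸ M))) ((1 : G) : G ⧸ M) - c.1 (σ (a : G ⧸ M)) ((1 : G) : G ⧸ M) =
      c.1 g (a : G ⧸ M)
    have h1 : g • (a : G ⧸ M) = ((g * a : G) : G ⧸ M) := rfl
    have h2 := c.2 g a ((1 : G) : G ⧸ M)
    rw [← coe_eq] at h2
    rw [h1, key, key, h2]
    ring

/-- the dimension formula -/
theorem dim_formula (hM : M.index ≠ 0) [FiniteDimensional ℚ (Zc G M)] :
    Module.finrank ℚ (Zc G M) + 1 = b1 M + M.index := by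
  have hfin : Finite (G ⧸ M) := by
    apply Nat.finite_of_card_ne_zero
    exact hM
  have hft := Fintype.ofFinite (G ⧸ M)
  have h1 := LinearMap.finrank_range_add_finrank_ker (RR G M)
  have h2 := LinearMap.finrank_range_add_finrank_ker (DD G M)
  have h3 : Module.finrank ℚ (LinearMap.range (RR G M)) = b1 M := by
    rw [LinearMap.range_eq_top.2 (RR_surj (G := G) (M := M))]
    exact finrank_top ℚ _
  have h4 : Module.finrank ℚ (LinearMap.ker (DD G M)) = 1 := by
    rw [DD_ker]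
    refine finrank_span_singleton ?_
    intro h
    have := congrFun h ((1 : G) : G ⧸ M)
    exact one_ne_zero this
  have h5 : Module.finrank ℚ ((G ⧸ M) → ℚ) = M.index := by
    rw [Module.finrank_fintype_fun_eq_card, ← Nat.card_eq_fintype_card]
    rfl
  rw [DD_range, h4, h5] at h2
  rw [h3] at h1
  omega

end gen

section free

variable {s : ℕ} {M : Subgroup (FreeGroup (Fin s))}

/-- the values at the generators -/
def EV : Zc (FreeGroup (Fin s)) M →ₗ[ℚ] (Fin s → (FreeGroup (Fin s) ⧸ M) → ℚ) where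
  toFun c := fun i x => c.1 (FreeGroup.of i) x
  map_add' _ _ := rfl
  map_smul' _ _ := rfl

theorem EV_inj : Function.Injective (EV (s := s) (M := M)) := by
  rw [injective_iff_map_eq_zero]
  intro c hc
  have h0 : ∀ i x, c.1 (FreeGroup.of i) x = 0 := fun i x => congrFun (congrFun hc i) x
  apply Subtype.ext
  funext g
  change c.1 g = 0
  induction g using FreeGroup.induction_on with
  | C1 =>
    funext x
    exact Zc.one c x
  | of i =>
    funext x
    exact h0 i x
  | inv_of i _ =>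
    funext x
    rw [Zc.inv, h0, neg_zero]
    rfl
  | mul g h hg hh =>
    funext x
    rw [c.2 g h x, hg, hh]
    simp

/-- the action of a generator -/
def gen (t : Fin s → (FreeGroup (Fin s) ⧸ M) → ℚ) (i : Fin s) :
    Equiv.Perm ((FreeGroup (Fin s) ⧸ M) × ℚ) where
  toFun p := (FreeGroup.of i • p.1, p.2 + t i p.1)
  invFun p := ((FreeGroup.of i)⁻¹ • p.1, p.2 - t i ((FreeGroup.of i)⁻¹ • p.1))
  left_inv p := by
    simp
  right_inv p := by
    simp

theorem EV_surj : Function.Surjective (EV (s := s) (M := M)) := by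
  intro t
  obtain ⟨ρ, hρ⟩ : ∃ ρ, ρ = FreeGroup.lift (gen t) := ⟨_, rfl⟩
  have key : ∀ (g : FreeGroup (Fin s)) (x : FreeGroup (Fin s) ⧸ M) (q : ℚ),
      ρ g (x, q) = (g • x, q + (ρ g (x, 0)).2) := by
    intro g
    induction g using FreeGroup.induction_on with
    | C1 =>
      intro x q
      simp
    | of i =>
      intro x q
      rw [hρ, FreeGroup.lift_apply_of]
      simp [gen]
    | inv_of i _ =>
      intro x q
      rw [hρ, map_inv, FreeGroup.lift_apply_of]
      change ((FreeGroup.of i)⁻¹ • x, q - t i ((FreeGroup.of i)⁻¹ • x)) =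
        ((FreeGroup.of i)⁻¹ • x, q + (0 - t i ((FreeGroup.of i)⁻¹ • x)))
      rw [zero_sub, sub_eq_add_neg]
    | mul g h hg hh =>
      intro x q
      have e1 := hh x q
      have e2 := hh x 0
      obtain ⟨b, hb⟩ : ∃ b, b = (ρ h (x, 0)).2 := ⟨_, rfl⟩
      rw [← hb] at e1 e2
      rw [map_mul, Equiv.Perm.mul_apply, Equiv.Perm.mul_apply, e1, e2, hg (h • x) (q + b),
        hg (h • x) (0 + b), mul_smul]
      refine Prod.ext rfl ?_
      change q + b + (ρ g (h • x, 0)).2 = q + (0 + b + (ρ g (h • x, 0)).2)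
      ring
  refine ⟨⟨fun g x => (ρ g (x, 0)).2, ?_⟩, ?_⟩
  · intro g h x
    change (ρ (g * h) (x, 0)).2 = (ρ g (h • x, 0)).2 + (ρ h (x, 0)).2
    have e2 := key h x 0
    obtain ⟨b, hb⟩ : ∃ b, b = (ρ h (x, 0)).2 := ⟨_, rfl⟩
    rw [← hb] at e2 ⊢
    rw [map_mul, Equiv.Perm.mul_apply, e2, key g (h • x) (0 + b)]
    change 0 + b + (ρ g (h • x, 0)).2 = (ρ g (h • x, 0)).2 + b
    ring
  · funext i x
    change (ρ (FreeGroup.of i) (x, 0)).2 = t i x
    rw [hρ, FreeGroup.lift_apply_of]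
    change 0 + t i x = t i x
    rw [zero_add]

end free

theorem D1_proof : Pool.Agent.H815.QC.S_D1 := by
  intro s M hM
  have hfin : Finite (FreeGroup (Fin s) ⧸ M) := by
    apply Nat.finite_of_card_ne_zero
    exact hM
  have hft := Fintype.ofFinite (FreeGroup (Fin s) ⧸ M)
  let e := LinearEquiv.ofBijective (EV (s := s) (M := M)) ⟨EV_inj, EV_surj⟩
  have hfd : FiniteDimensional ℚ (Zc (FreeGroup (Fin s)) M) := Module.Finite.equiv e.symm
  have h1 := dim_formula (G := FreeGroup (Fin s)) (M := M) hM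
  have h2 : Module.finrank ℚ (Zc (FreeGroup (Fin s)) M) = s * M.index := by
    rw [e.finrank_eq, Module.finrank_pi_fintype]
    simp only [Module.finrank_fintype_fun_eq_card, Finset.sum_const, Finset.card_univ,
      Fintype.card_fin, smul_eq_mul]
    rw [← Nat.card_eq_fintype_card]
    rfl
  rw [h2] at h1
  have h3 : (b1 M : ℤ) + M.index = s * M.index + 1 := by exact_mod_cast h1.symm
  linarith

end Pool.Agent.H922.QC
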